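import Pool.Agent.Helper14.TT.StL

/-!
# Project TT, module X7B: evaluation of the path of the prime 7 on the binomial basis
-/

set_option autoImplicit false

namespace Pool.Agent.Helper84.TT

open Pool.Agent.Helper14.TT Pool.Agent.Helper14.CV

private theorem two_eq_X7B (a : ZMod 2) : a + a = 0 := CharTwo.add_self_eq_zero a

/-- Adding `2^t` does not change the parity of the binomial coefficient `(n choose i)`, `i < 2^t`. -/
private theorem step_X7B (t n i : ℕ) (hi : i < 2 ^ t) :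
    (((2 ^ t + n).choose i : ℕ) : ZMod 2) = ((n.choose i : ℕ) : ZMod 2) := by
  rw [Nat.add_choose_eq]
  push_cast
  rw [Finset.sum_eq_single (0, i)]
  · simp
  · rintro ⟨a, b⟩ hab hne
    rw [Finset.HasAntidiagonal.mem_antidiagonal] at hab
    have ha0 : a ≠ 0 := by
      rintro rfl
      apply hne
      simp only [zero_add] at hab
      rw [hab]
    have h2 : 2 ∣ (2 ^ t).choose a := Nat.prime_two.dvd_choose_pow ha0 (by
      simp only at hab
      omega)
    have h3 : (((2 ^ t).choose a : ℕ) : ZMod 2) = 0 := (ZMod.natCast_eq_zero_iff _ _).mpr h2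
    rw [h3, zero_mul]
  · intro h
    exact absurd (Finset.HasAntidiagonal.mem_antidiagonal.mpr (zero_add i)) h

private theorem steps_X7B (t n i q : ℕ) (hi : i < 2 ^ t) :
    (((2 ^ t * q + n).choose i : ℕ) : ZMod 2) = ((n.choose i : ℕ) : ZMod 2) := by
  induction q with
  | zero => simp
  | succ q ih =>
    have : 2 ^ t * (q + 1) + n = 2 ^ t + (2 ^ t * q + n) := by ring
    rw [this, step_X7B t _ i hi, ih]

private theorem per_X7B (t n i : ℕ) (hi : i < 2 ^ t) :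
    ((n.choose i : ℕ) : ZMod 2) = (((n % 2 ^ t).choose i : ℕ) : ZMod 2) := by
  conv_lhs => rw [← Nat.div_add_mod n (2 ^ t)]
  exact steps_X7B t _ i _ hi

private theorem congr_X7B (t n n' i : ℕ) (hi : i < 2 ^ t) (h : (2 ^ t : ℤ) ∣ (n : ℤ) - n') :
    ((n.choose i : ℕ) : ZMod 2) = ((n'.choose i : ℕ) : ZMod 2) := by
  rw [per_X7B t n i hi, per_X7B t n' i hi]
  have h1 : n % 2 ^ t = n' % 2 ^ t := by
    have h2 : (n' : ℤ) ≡ n [ZMOD ((2 ^ t : ℕ) : ℤ)] := by
      rw [Int.modEq_iff_dvd]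
      push_cast
      exact h
    exact ((Int.natCast_modEq_iff.mp h2).symm)
  rw [h1]

/-- One coordinate. -/
private theorem coord_X7B (r i : ℕ) (hi : i < 2 ^ r) (hi8 : i < 8) (u u' : ℤ) (hu : u' % 2 = 1) :
    ((((u : ZMod (2 ^ r)) * (u' : ZMod (2 ^ r))⁻¹).val.choose i : ℕ) : ZMod 2) =
      (((((u * u') % 8).toNat).choose i : ℕ) : ZMod 2) := by
  obtain ⟨t, ht8, htr, hti⟩ : ∃ t : ℕ, (2 ^ t : ℤ) ∣ 8 ∧ (2 ^ t : ℤ) ∣ ((2 ^ r : ℕ) : ℤ) ∧
      i < 2 ^ t := by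
    rcases Nat.lt_or_ge r 3 with h | h
    · refine ⟨r, ?_, ?_, hi⟩
      · have : (8 : ℤ) = 2 ^ 3 := by norm_num
        rw [this]
        exact pow_dvd_pow 2 h.le
      · push_cast
        exact dvd_refl _
    · refine ⟨3, by norm_num, ?_, by norm_num; exact hi8⟩
      push_cast
      exact pow_dvd_pow 2 h
  apply congr_X7B t _ _ i hti
  have hne : NeZero (2 ^ r) := ⟨pow_ne_zero _ two_ne_zero⟩
  set x : ZMod (2 ^ r) := (u : ZMod (2 ^ r)) * (u' : ZMod (2 ^ r))⁻¹ with hx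
  have hcop : IsCoprime u' ((2 ^ r : ℕ) : ℤ) := by
    push_cast
    apply IsCoprime.pow_right
    refine ⟨1, -(u' / 2), ?_⟩
    omega
  have hunit : IsUnit ((u' : ℤ) : ZMod (2 ^ r)) := by
    obtain ⟨a, b, hab⟩ := hcop
    refine isUnit_iff_exists_inv'.mpr ⟨(a : ZMod (2 ^ r)), ?_⟩
    have h := congrArg (fun z : ℤ => (z : ZMod (2 ^ r))) hab
    simp only [Int.cast_add, Int.cast_mul, Int.cast_one] at h
    have h0 : (((2 ^ r : ℕ) : ℤ) : ZMod (2 ^ r)) = 0 := by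
      rw [Int.cast_natCast]
      exact ZMod.natCast_self _
    rw [h0, mul_zero, add_zero] at h
    exact h
  have h1 : x * (u' : ZMod (2 ^ r)) = (u : ZMod (2 ^ r)) := by
    rw [hx, mul_assoc, ZMod.inv_mul_of_unit _ hunit, mul_one]
  have h2 : ((2 ^ r : ℕ) : ℤ) ∣ (x.val : ℤ) * u' - u := by
    rw [← ZMod.intCast_zmod_eq_zero_iff_dvd]
    push_cast
    rw [ZMod.natCast_zmod_val, h1, sub_self]
  have h3 : (2 ^ t : ℤ) ∣ (x.val : ℤ) * u' - u := htr.trans h2
  have h4 : (8 : ℤ) ∣ u' ^ 2 - 1 := by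
    have h5 : u' % 8 = 1 ∨ u' % 8 = 3 ∨ u' % 8 = 5 ∨ u' % 8 = 7 := by omega
    apply Int.dvd_of_emod_eq_zero
    rcases h5 with h5 | h5 | h5 | h5 <;> (rw [pow_two, Int.sub_emod, Int.mul_emod, h5]; norm_num)
  have h6 : (2 ^ t : ℤ) ∣ u' ^ 2 - 1 := ht8.trans h4
  have h7 : (8 : ℤ) ∣ u * u' - (((u * u') % 8).toNat : ℤ) := by
    rw [Int.toNat_of_nonneg (Int.emod_nonneg _ (by norm_num))]
    exact Int.dvd_self_sub_emod
  have h8 : (2 ^ t : ℤ) ∣ u * u' - (((u * u') % 8).toNat : ℤ) := ht8.trans h7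
  have h9 : (x.val : ℤ) - (((u * u') % 8).toNat : ℤ) =
      ((x.val : ℤ) * u' - u) * u' - (x.val : ℤ) * (u' ^ 2 - 1) +
        (u * u' - (((u * u') % 8).toNat : ℤ)) := by ring
  rw [h9]
  exact dvd_add (dvd_sub (h3.mul_right _) (h6.mul_left _)) h8

/-- The table entry. -/
private def tab_X7B (i j : ℕ) : ZMod 2 :=
  (P7.map fun t : ℤ × ℤ × ℤ × ℤ => ((((t.1 * t.2.1) % 8).toNat.choose i : ℕ) : ZMod 2) *
    ((((t.2.2.1 * t.2.2.2) % 8).toNat.choose j : ℕ) : ZMod 2)).sum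

private theorem odd_X7B : ∀ t ∈ P7, t.2.1 % 2 = 1 ∧ t.2.2.2 % 2 = 1 := by decide

private theorem S7bb_X7B (r s i j : ℕ) (hi : i < 2 ^ r) (hi8 : i < 8) (hj : j < 2 ^ s)
    (hj8 : j < 8) : S7 (bb i j : Fn (2 ^ r) (2 ^ s)) = tab_X7B i j := by
  unfold S7 tab_X7B
  congr 1
  apply List.map_congr_left
  intro t ht
  obtain ⟨h1, h2⟩ := odd_X7B t ht
  simp only [bb]
  push_cast
  rw [coord_X7B r i hi hi8 t.1 t.2.1 h1, coord_X7B s j hj hj8 t.2.2.1 t.2.2.2 h2]

private theorem table_X7B : ∀ i j : Fin 8, (i : ℕ) + j ≤ 7 →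
    tab_X7B i j = if ((i : ℕ) = 4 ∧ (j : ℕ) = 3) ∨ ((i : ℕ) = 3 ∧ (j : ℕ) = 4) then 1 else 0 := by
  decide +kernel

/-- `S7` as a linear map. -/
private def S7l_X7B (r s : ℕ) : Fn (2 ^ r) (2 ^ s) →ₗ[ZMod 2] ZMod 2 where
  toFun := S7
  map_add' F G := by
    simp only [S7, Pi.add_apply]
    rw [← List.sum_map_add]
  map_smul' c F := by
    simp only [S7, Pi.smul_apply, smul_eq_mul, RingHom.id_apply]
    rw [← List.sum_map_mul_left]

private theorem pick_X7B (r s a b : ℕ) (c : ℕ → ℕ → ZMod 2)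
    (hcx : ∀ i j, 2 ^ r ≤ i → c i j = 0) (hcy : ∀ i j, 2 ^ s ≤ j → c i j = 0) :
    ∑ i ∈ Finset.range (2 ^ r), ∑ j ∈ Finset.range (2 ^ s),
      (if i = a then (if j = b then c a b else 0) else 0) = c a b := by
  rcases Nat.lt_or_ge a (2 ^ r) with ha | ha
  · rcases Nat.lt_or_ge b (2 ^ s) with hb | hb
    · rw [Finset.sum_eq_single a, Finset.sum_eq_single b]
      · simp
      · intro j _ hj
        simp [hj]
      · intro h
        exact absurd (Finset.mem_range.mpr hb) h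
      · intro i _ hi
        simp [hi]
      · intro h
        exact absurd (Finset.mem_range.mpr ha) h
    · rw [hcy a b hb]
      simp
  · rw [hcx a b ha]
    simp

private theorem sum_X7B (r s : ℕ) (c : ℕ → ℕ → ZMod 2) (hc0 : ∀ i j, 7 < i + j → c i j = 0)
    (hcx : ∀ i j, 2 ^ r ≤ i → c i j = 0) (hcy : ∀ i j, 2 ^ s ≤ j → c i j = 0)
    (S : ℕ → ℕ → ZMod 2)
    (hS : ∀ i j, i < 2 ^ r → j < 2 ^ s → i + j ≤ 7 →
      S i j = if (i = 4 ∧ j = 3) ∨ (i = 3 ∧ j = 4) then 1 else 0) :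
    ∑ i ∈ Finset.range (2 ^ r), ∑ j ∈ Finset.range (2 ^ s), c i j * S i j = c 4 3 + c 3 4 := by
  have hterm : ∀ i ∈ Finset.range (2 ^ r), ∀ j ∈ Finset.range (2 ^ s),
      c i j * S i j =
        (if i = 4 then (if j = 3 then c 4 3 else 0) else 0) +
        (if i = 3 then (if j = 4 then c 3 4 else 0) else 0) := by
    intro i hi j hj
    rw [Finset.mem_range] at hi hj
    rcases Nat.lt_or_ge 7 (i + j) with h | h
    · rw [hc0 i j h, zero_mul]
      rcases eq_or_ne i 4 with rfl | h4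
      · rw [if_neg (show j ≠ 3 by omega)]
        simp
      · rcases eq_or_ne i 3 with rfl | h3
        · rw [if_neg (show j ≠ 4 by omega)]
          simp
        · simp [h4, h3]
    · rw [hS i j hi hj h]
      rcases eq_or_ne i 4 with rfl | h4
      · rcases eq_or_ne j 3 with rfl | h3
        · simp
        · simp [h3]
      · rcases eq_or_ne i 3 with rfl | h3
        · rcases eq_or_ne j 4 with rfl | h4'
          · simp
          · simp [h4']
        · simp [h4, h3]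
  rw [Finset.sum_congr rfl fun i hi => Finset.sum_congr rfl fun j hj => hterm i hi j hj]
  simp only [Finset.sum_add_distrib]
  congr 1
  · exact pick_X7B r s 4 3 c hcx hcy
  · exact pick_X7B r s 3 4 c hcx hcy

theorem hX7B (hBb : StBb) (hLow0 : StLow0) : X7B := by
  intro r s F hF
  obtain ⟨_, _, _, _, _, _, _, hcomm, hx0, hy0, _, _, _⟩ := hLow0 r s
  have hnew := (hBb r s).2.2.2.2.2 F
  set c : ℕ → ℕ → ZMod 2 := fun i j =>
    (((dx ^ i * dy ^ j : Module.End (ZMod 2) (Fn (2 ^ r) (2 ^ s))) F) 0 0) with hc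
  have hc0 : ∀ i j, 7 < i + j → c i j = 0 := by
    intro i j hij
    have h := hF i j (by exact_mod_cast hij)
    simp only [hc, h]
    rfl
  have hcx : ∀ i j, 2 ^ r ≤ i → c i j = 0 := by
    intro i j hij
    obtain ⟨k, rfl⟩ := Nat.exists_eq_add_of_le hij
    simp only [hc, pow_add, hx0, zero_mul]
    rfl
  have hcy : ∀ i j, 2 ^ s ≤ j → c i j = 0 := by
    intro i j hij
    obtain ⟨k, rfl⟩ := Nat.exists_eq_add_of_le hij
    simp only [hc, pow_add, hy0, zero_mul, mul_zero]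
    rfl
  have hL : ((L3 * L5 : Module.End (ZMod 2) (Fn (2 ^ r) (2 ^ s))) F) 0 0 = c 4 3 + c 3 4 := by
    have hC : Commute (dx : Module.End (ZMod 2) (Fn (2 ^ r) (2 ^ s))) dy := hcomm
    have h1 : (L3 * L5 : Module.End (ZMod 2) (Fn (2 ^ r) (2 ^ s))) =
        dx ^ 4 * dy ^ 3 + dx ^ 3 * dy ^ 4 := by
      unfold L3 L5
      rw [mul_add, add_mul]
      congr 1
      · calc (dx * dy * dx * (dx ^ 2 * dy ^ 2) : Module.End (ZMod 2) (Fn (2 ^ r) (2 ^ s)))
            = dx * (dy * dx ^ 3) * dy ^ 2 := by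
              rw [pow_succ' dx 2]; simp only [mul_assoc]
          _ = dx * (dx ^ 3 * dy) * dy ^ 2 := by rw [(hC.pow_left 3).eq]
          _ = dx ^ 4 * dy ^ 3 := by
              rw [pow_succ' dx 3, pow_succ' dy 2]; simp only [mul_assoc]
      · calc (dx * dy * dy * (dx ^ 2 * dy ^ 2) : Module.End (ZMod 2) (Fn (2 ^ r) (2 ^ s)))
            = dx * (dy ^ 2 * dx ^ 2) * dy ^ 2 := by
              rw [pow_two dy]; simp only [mul_assoc]
          _ = dx * (dx ^ 2 * dy ^ 2) * dy ^ 2 := by rw [(hC.pow_pow 2 2).eq]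
          _ = dx ^ 3 * dy ^ 4 := by
              rw [pow_succ' dx 2, show (dy ^ 4 : Module.End (ZMod 2) (Fn (2 ^ r) (2 ^ s))) =
                dy ^ 2 * dy ^ 2 by rw [← pow_add]]
              simp only [mul_assoc]
    rw [h1]
    rfl
  rw [hL]
  have hS : S7 F = ∑ i ∈ Finset.range (2 ^ r), ∑ j ∈ Finset.range (2 ^ s),
      c i j * S7 (bb i j : Fn (2 ^ r) (2 ^ s)) := by
    have h1 : S7l_X7B r s F = ∑ i ∈ Finset.range (2 ^ r), ∑ j ∈ Finset.range (2 ^ s),
        c i j * S7l_X7B r s (bb i j : Fn (2 ^ r) (2 ^ s)) := by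
      conv_lhs => rw [hnew]
      simp only [map_sum, map_smul, smul_eq_mul]
      rfl
    exact h1
  rw [hS]
  exact sum_X7B r s c hc0 hcx hcy
    (fun i j => S7 (bb i j : Fn (2 ^ r) (2 ^ s)))
    (fun i j hi hj hij => by
      rw [S7bb_X7B r s i j hi (by omega) hj (by omega)]
      exact table_X7B ⟨i, by omega⟩ ⟨j, by omega⟩ hij)

end Pool.Agent.Helper84.TT
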