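import Pool.Agent.Helper95.TT.St

/-!
# Project TT (MP_6090f9_nt), module A2: the prime ideal sum with logarithmic weights
-/

set_option autoImplicit false

namespace Pool.Agent.Helper84.TT

open NumberField IsDedekindDomain Polynomial Filter Topology
open Pool.Agent.Helper95.TT

noncomputable section

/-- `-log (1 - x ^ (-s))` -/
def hh (x s : ℝ) : ℝ := -Real.log (1 - x ^ (-s))

/-- `log x / (x ^ s - 1)` -/
def dd (x s : ℝ) : ℝ := Real.log x / (x ^ s - 1)

theorem pow_gt {x s : ℝ} (hx : 2 ≤ x) (hs : 1 ≤ s) : x ≤ x ^ s := by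
  calc x = x ^ (1 : ℝ) := (Real.rpow_one x).symm
    _ ≤ x ^ s := Real.rpow_le_rpow_of_exponent_le (by linarith) hs

theorem dd_nonneg {x s : ℝ} (hx : 2 ≤ x) (hs : 1 ≤ s) : 0 ≤ dd x s := by
  have h1 := pow_gt hx hs
  exact div_nonneg (Real.log_nonneg (by linarith)) (by linarith)

/-- the mean value inequalities -/
theorem mvi {x s t : ℝ} (hx : 2 ≤ x) (hs : 1 ≤ s) (hst : s < t) :
    (t - s) * dd x t ≤ hh x s - hh x t ∧ hh x s - hh x t ≤ (t - s) * dd x s := by
  have hx0 : 0 < x := by linarith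
  have h1 := pow_gt hx hs
  have h2 := pow_gt hx (hs.trans hst.le)
  have hsi : x ^ (-s) = (x ^ s)⁻¹ := Real.rpow_neg hx0.le s
  have hti : x ^ (-t) = (x ^ t)⁻¹ := Real.rpow_neg hx0.le t
  set a := x ^ s with ha
  set b := x ^ t with hb
  have ha1 : 0 < a - 1 := by linarith
  have hb1 : 0 < b - 1 := by linarith
  have hba : b = a * x ^ (t - s) := by
    rw [ha, hb, ← Real.rpow_add hx0]
    congr 1
    ring
  have hexp : x ^ (t - s) = Real.exp ((t - s) * Real.log x) := by
    rw [Real.rpow_def_of_pos hx0, mul_comm]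
  have e1 : (t - s) * Real.log x + 1 ≤ x ^ (t - s) := by
    rw [hexp]; exact Real.add_one_le_exp _
  have e2 : 1 - (t - s) * Real.log x ≤ (x ^ (t - s))⁻¹ := by
    rw [hexp, ← Real.exp_neg]
    exact Real.one_sub_le_exp_neg _
  have hy : hh x s - hh x t = Real.log ((1 - b⁻¹) / (1 - a⁻¹)) := by
    have ha2 : 1 - a⁻¹ ≠ 0 := by
      have : a⁻¹ < 1 := inv_lt_one_of_one_lt₀ (by linarith)
      linarith
    have hb2 : 1 - b⁻¹ ≠ 0 := by
      have : b⁻¹ < 1 := inv_lt_one_of_one_lt₀ (by linarith)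
      linarith
    rw [Real.log_div hb2 ha2]
    unfold hh
    rw [hsi, hti]
    ring
  have ha3 : 0 < 1 - a⁻¹ := by
    have : a⁻¹ < 1 := inv_lt_one_of_one_lt₀ (by linarith)
    linarith
  have hb3 : 0 < 1 - b⁻¹ := by
    have : b⁻¹ < 1 := inv_lt_one_of_one_lt₀ (by linarith)
    linarith
  have hpos : 0 < (1 - b⁻¹) / (1 - a⁻¹) := div_pos hb3 ha3
  have ha0 : a ≠ 0 := by linarith
  have hb0 : b ≠ 0 := by linarith
  have ha10 : a - 1 ≠ 0 := ha1.ne'
  have hb10 : b - 1 ≠ 0 := hb1.ne'
  have hp0 : 0 < x ^ (t - s) := Real.rpow_pos_of_pos hx0 _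
  rw [hy]
  constructor
  · have h3 := Real.one_sub_inv_le_log_of_pos hpos
    refine le_trans ?_ h3
    have h4 : 1 - ((1 - b⁻¹) / (1 - a⁻¹))⁻¹ = (x ^ (t - s) - 1) / (b - 1) := by
      have h5 : x ^ (t - s) = b / a := by rw [hba]; field_simp
      rw [h5, inv_div]
      have h6 : (1 - a⁻¹) / (1 - b⁻¹) = (b * (a - 1)) / (a * (b - 1)) := by
        rw [div_eq_div_iff hb3.ne' (mul_ne_zero ha0 hb10)]
        field_simp
      rw [h6]
      field_simp
      ring
    rw [h4]
    unfold dd
    rw [mul_div_assoc']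
    exact div_le_div_of_nonneg_right (by linarith) hb1.le
  · have h3 := Real.log_le_sub_one_of_pos hpos
    refine h3.trans ?_
    have h4 : (1 - b⁻¹) / (1 - a⁻¹) - 1 = (1 - (x ^ (t - s))⁻¹) / (a - 1) := by
      have h5 : x ^ (t - s) = b / a := by rw [hba]; field_simp
      rw [h5, inv_div]
      have h6 : (1 - b⁻¹) / (1 - a⁻¹) = (a * (b - 1)) / (b * (a - 1)) := by
        rw [div_eq_div_iff ha3.ne' (mul_ne_zero hb0 ha10)]
        field_simp
      rw [h6]
      field_simp
      ring
    rw [h4]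
    unfold dd
    rw [mul_div_assoc']
    exact div_le_div_of_nonneg_right (by linarith) ha1.le

/-- comparison of the two weights -/
theorem cmp {x s : ℝ} (hx : 2 ≤ x) (hs : 1 ≤ s) :
    Real.log x * x ^ (-s) ≤ dd x s ∧ dd x s - Real.log x * x ^ (-s) ≤ 2 * dd x 2 := by
  have hx0 : 0 < x := by linarith
  have h1 := pow_gt hx hs
  have hl : 0 ≤ Real.log x := Real.log_nonneg (by linarith)
  have hsi : x ^ (-s) = (x ^ s)⁻¹ := Real.rpow_neg hx0.le s
  have h2 : x ^ (2 : ℝ) = x ^ 2 := Real.rpow_two x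
  unfold dd
  rw [hsi, h2]
  set a := x ^ s with ha
  have ha1 : 0 < a - 1 := by linarith
  have ha0 : 0 < a := by linarith
  have hx1 : 0 < x ^ 2 - 1 := by nlinarith
  constructor
  · rw [← div_eq_mul_inv]
    exact div_le_div_of_nonneg_left hl ha1 (by linarith)
  · have h3 : Real.log x / (a - 1) - Real.log x * a⁻¹ = Real.log x / (a * (a - 1)) := by
      field_simp
      ring
    have h4 : 2 * (Real.log x / (x ^ 2 - 1)) = Real.log x / ((x ^ 2 - 1) / 2) := by
      field_simp
    rw [h3, h4]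
    apply div_le_div_of_nonneg_left hl (by linarith)
    nlinarith

/-- the abstract form -/
theorem core {V : Type} (Q : V → ℝ) (hQ : ∀ v, 2 ≤ Q v)
    (hsum : ∀ s : ℝ, 1 < s → Summable (fun v => hh (Q v) s)) (κ : ℝ)
    (hκ : Tendsto (fun s : ℝ => (∑' v, hh (Q v) s) + Real.log (s - 1)) (𝓝[>] 1) (𝓝 κ)) :
    (∀ s : ℝ, 1 < s → Summable (fun v => Real.log (Q v) * Q v ^ (-s))) ∧
    Tendsto (fun s : ℝ => (s - 1) * ∑' v, Real.log (Q v) * Q v ^ (-s)) (𝓝[>] 1) (𝓝 1) := by
  have hd : ∀ s : ℝ, 1 < s → Summable (fun v => dd (Q v) s) := by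
    intro t ht
    have hs : 1 < (1 + t) / 2 := by linarith
    have h1 := (hsum _ hs).sub (hsum t ht)
    have h2 : Summable (fun v => (t - (1 + t) / 2) * dd (Q v) t) :=
      Summable.of_nonneg_of_le
        (fun v => mul_nonneg (by linarith) (dd_nonneg (hQ v) ht.le))
        (fun v => (mvi (hQ v) hs.le (by linarith)).1) h1
    have h3 : (t - (1 + t) / 2) ≠ 0 := by
      have : 0 < t - (1 + t) / 2 := by linarith
      exact this.ne'
    exact (summable_mul_left_iff h3).1 h2
  have hw : ∀ s : ℝ, 1 < s → Summable (fun v => Real.log (Q v) * Q v ^ (-s)) := by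
    intro s hs
    refine Summable.of_nonneg_of_le (fun v => ?_) (fun v => (cmp (hQ v) hs.le).1) (hd s hs)
    have := hQ v
    exact mul_nonneg (Real.log_nonneg (by linarith)) (Real.rpow_nonneg (by linarith) _)
  refine ⟨hw, ?_⟩
  set Ψ : ℝ → ℝ := fun s => ∑' v, hh (Q v) s with hΨ
  set Δ : ℝ → ℝ := fun s => ∑' v, dd (Q v) s with hΔ
  have hmv : ∀ s t : ℝ, 1 < s → s < t →
      (t - s) * Δ t ≤ Ψ s - Ψ t ∧ Ψ s - Ψ t ≤ (t - s) * Δ s := by
    intro s t hs hst
    have ht : 1 < t := hs.trans hst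
    have h1 : Ψ s - Ψ t = ∑' v, (hh (Q v) s - hh (Q v) t) :=
      ((hsum s hs).tsum_sub (hsum t ht)).symm
    have h2 : ∀ r : ℝ, (t - s) * Δ r = ∑' v, (t - s) * dd (Q v) r := fun r => tsum_mul_left.symm
    constructor
    · rw [h1, h2]
      exact Summable.tsum_le_tsum (fun v => (mvi (hQ v) hs.le hst).1) ((hd t ht).mul_left _)
        ((hsum s hs).sub (hsum t ht))
    · rw [h1, h2]
      exact Summable.tsum_le_tsum (fun v => (mvi (hQ v) hs.le hst).2)
        ((hsum s hs).sub (hsum t ht)) ((hd s hs).mul_left _)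
  -- the scaled difference
  have hscale : ∀ l : ℝ, 0 < l → Tendsto (fun s : ℝ => 1 + l * (s - 1)) (𝓝[>] 1) (𝓝[>] 1) := by
    intro l hl
    rw [tendsto_nhdsWithin_iff]
    constructor
    · have h1 : Tendsto (fun s : ℝ => 1 + l * (s - 1)) (𝓝 1) (𝓝 (1 + l * (1 - 1))) := by
        apply Continuous.tendsto
        fun_prop
      rw [sub_self, mul_zero, add_zero] at h1
      exact h1.mono_left nhdsWithin_le_nhds
    · filter_upwards [self_mem_nhdsWithin] with s hs
      have hs' : 1 < s := hs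
      have : 0 < l * (s - 1) := mul_pos hl (by linarith)
      show 1 < 1 + l * (s - 1)
      linarith
  have hdiff : ∀ l : ℝ, 0 < l →
      Tendsto (fun s : ℝ => Ψ s - Ψ (1 + l * (s - 1))) (𝓝[>] 1) (𝓝 (Real.log l)) := by
    intro l hl
    have h1 := hκ.sub (hκ.comp (hscale l hl))
    have h2 := h1.add_const (Real.log l)
    rw [sub_self, zero_add] at h2
    refine h2.congr' ?_
    filter_upwards [self_mem_nhdsWithin] with s hs
    have hs' : 1 < s := hs
    have h3 : 0 < s - 1 := by linarith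
    simp only [Function.comp_apply]
    rw [show 1 + l * (s - 1) - 1 = l * (s - 1) by ring, Real.log_mul hl.ne' h3.ne']
    ring
  have hΔlim : Tendsto (fun s : ℝ => (s - 1) * Δ s) (𝓝[>] 1) (𝓝 1) := by
    rw [tendsto_order]
    constructor
    · intro a ha
      -- choose `l > 1` with `a < 1 / l`
      obtain ⟨l, hl1, hl2⟩ : ∃ l : ℝ, 1 < l ∧ a < 1 / l := by
        rcases le_or_gt a 0 with h0 | h0
        · exact ⟨2, by norm_num, lt_of_le_of_lt h0 (by norm_num)⟩
        · have h1 : 1 < 1 / a := by rw [lt_div_iff₀ h0]; linarith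
          obtain ⟨l, hl1, hl2⟩ := exists_between h1
          refine ⟨l, hl1, ?_⟩
          rw [lt_div_iff₀ (by linarith)]
          rw [lt_div_iff₀ h0] at hl2
          linarith
      have h1 := hdiff l (by linarith)
      have h2 : (l - 1) / l ≤ Real.log l := by
        have := Real.one_sub_inv_le_log_of_pos (show 0 < l by linarith)
        have h3 : (l - 1) / l = 1 - l⁻¹ := by
          have : l ≠ 0 := by linarith
          field_simp
        linarith
      have h3 : (l - 1) * a < Real.log l := by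
        refine lt_of_lt_of_le ?_ h2
        have h4 : (l - 1) / l = (l - 1) * (1 / l) := by ring
        rw [h4]
        exact mul_lt_mul_of_pos_left hl2 (by linarith)
      filter_upwards [h1.eventually_const_lt h3, self_mem_nhdsWithin] with s hs1 hs2
      have hs' : 1 < s := hs2
      have h5 : s < 1 + l * (s - 1) := by nlinarith
      have h6 := (hmv s _ hs' h5).2
      have h7 : (1 + l * (s - 1) - s) * Δ s = (l - 1) * ((s - 1) * Δ s) := by ring
      rw [h7] at h6
      have h8 : (l - 1) * a < (l - 1) * ((s - 1) * Δ s) := lt_of_lt_of_le hs1 h6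
      exact lt_of_mul_lt_mul_left h8 (by linarith)
    · intro a ha
      -- `l < 1`, `l = 1 / λ`, `1 / l < a`
      obtain ⟨l, hl0, hl1, hl2⟩ : ∃ l : ℝ, 0 < l ∧ l < 1 ∧ 1 / l < a := by
        have h1 : 1 / a < 1 := by rw [div_lt_one (by linarith)]; exact ha
        obtain ⟨l, hl1, hl2⟩ := exists_between h1
        have h0 : 0 < 1 / a := by
          have : 0 < a := by linarith
          positivity
        refine ⟨l, by linarith, hl2, ?_⟩
        rw [div_lt_iff₀ (by linarith)]
        rw [div_lt_iff₀ (by linarith)] at hl1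
        linarith
      have h1 := hdiff l hl0
      -- `Ψ s - Ψ (1 + l (s - 1)) → log l`
      have h2 : (l - 1) / l ≤ Real.log l := by
        have := Real.one_sub_inv_le_log_of_pos hl0
        have h3 : (l - 1) / l = 1 - l⁻¹ := by field_simp
        linarith
      have h3 : (l - 1) * a < Real.log l := by
        refine lt_of_lt_of_le ?_ h2
        have h4 : (l - 1) / l = (l - 1) * (1 / l) := by ring
        rw [h4]
        exact mul_lt_mul_of_neg_left hl2 (by linarith)
      filter_upwards [h1.eventually_const_lt h3, self_mem_nhdsWithin] with s hs1 hs2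
      have hs' : 1 < s := hs2
      have h50 : 0 < l * (s - 1) := mul_pos hl0 (by linarith)
      have h5 : 1 + l * (s - 1) < s := by nlinarith
      have h6 := (hmv _ s (by linarith) h5).1
      have h7 : (s - (1 + l * (s - 1))) * Δ s = (1 - l) * ((s - 1) * Δ s) := by ring
      rw [h7] at h6
      have h8 : (1 - l) * ((s - 1) * Δ s) < (1 - l) * a := by
        have h9 : (1 - l) * a = -((l - 1) * a) := by ring
        rw [h9]
        linarith
      exact lt_of_mul_lt_mul_left h8 (by linarith)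
  -- the difference is bounded
  have hD2 := hd 2 (by norm_num)
  have hbd : ∀ s : ℝ, 1 < s → 0 ≤ Δ s - ∑' v, Real.log (Q v) * Q v ^ (-s) ∧
      Δ s - ∑' v, Real.log (Q v) * Q v ^ (-s) ≤ 2 * Δ 2 := by
    intro s hs
    have h1 : Δ s - ∑' v, Real.log (Q v) * Q v ^ (-s) =
        ∑' v, (dd (Q v) s - Real.log (Q v) * Q v ^ (-s)) :=
      ((hd s hs).tsum_sub (hw s hs)).symm
    rw [h1]
    constructor
    · exact tsum_nonneg fun v => by
        have := (cmp (hQ v) hs.le).1
        linarith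
    · have h2 : 2 * Δ 2 = ∑' v, 2 * dd (Q v) 2 := tsum_mul_left.symm
      rw [h2]
      exact Summable.tsum_le_tsum (fun v => (cmp (hQ v) hs.le).2) ((hd s hs).sub (hw s hs))
        (hD2.mul_left _)
  have hs0 : Tendsto (fun s : ℝ => (s - 1) * (2 * Δ 2)) (𝓝[>] 1) (𝓝 0) := by
    have h1 : Tendsto (fun s : ℝ => (s - 1) * (2 * Δ 2)) (𝓝 1) (𝓝 ((1 - 1) * (2 * Δ 2))) := by
      apply Continuous.tendsto
      fun_prop
    rw [sub_self, zero_mul] at h1
    exact h1.mono_left nhdsWithin_le_nhds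
  have hs1 : Tendsto (fun s : ℝ => (s - 1) * (Δ s - ∑' v, Real.log (Q v) * Q v ^ (-s)))
      (𝓝[>] 1) (𝓝 0) := by
    refine squeeze_zero' ?_ ?_ hs0
    · filter_upwards [self_mem_nhdsWithin] with s hs
      have hs' : 1 < s := hs
      exact mul_nonneg (by linarith) (hbd s hs').1
    · filter_upwards [self_mem_nhdsWithin] with s hs
      have hs' : 1 < s := hs
      exact mul_le_mul_of_nonneg_left (hbd s hs').2 (by linarith)
  have hfin := hΔlim.sub hs1
  rw [sub_zero] at hfin
  refine hfin.congr fun s => ?_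
  ring

theorem hA2 (hA1 : StA1) : StA2 := by
  intro K _ _
  have hq : ∀ v : Pr K, (2 : ℝ) ≤ (q v : ℝ) := by
    intro v
    have h0 : Ideal.absNorm v.asIdeal ≠ 0 := by
      rw [Ne, Ideal.absNorm_eq_zero_iff]
      exact v.ne_bot
    have h1 : Ideal.absNorm v.asIdeal ≠ 1 := by
      rw [Ne, Ideal.absNorm_eq_one_iff]
      exact v.isPrime.ne_top
    have h2 : 2 ≤ q v := by
      unfold q
      omega
    exact_mod_cast h2
  have hr := dedekindZeta_residue_pos K
  have htend : Tendsto (fun s : ℝ => (s - 1) * (dedekindZeta K s).re) (𝓝[>] 1)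
      (𝓝 (dedekindZeta_residue K)) := by
    have h1 := (Complex.continuous_re.tendsto _).comp (tendsto_sub_one_mul_dedekindZeta_nhdsGT K)
    refine (h1.congr fun s => ?_)
    simp only [Function.comp_apply]
    have h2 : ((s : ℂ) - 1) = ((s - 1 : ℝ) : ℂ) := by push_cast; rfl
    rw [h2, Complex.re_ofReal_mul]
  have hκ : Tendsto (fun s : ℝ => (∑' v : Pr K, hh (q v : ℝ) s) + Real.log (s - 1)) (𝓝[>] 1)
      (𝓝 (Real.log (dedekindZeta_residue K))) := by
    have h1 := (Real.continuousAt_log hr.ne').tendsto.comp htend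
    refine h1.congr' ?_
    filter_upwards [htend.eventually_const_lt hr, self_mem_nhdsWithin] with s hs1 hs2
    have hs' : 1 < s := hs2
    have h3 : 0 < s - 1 := by linarith
    have h4 : 0 < (dedekindZeta K s).re := (pos_iff_pos_of_mul_pos hs1).1 h3
    simp only [Function.comp_apply]
    rw [Real.log_mul h3.ne' h4.ne', ← (hA1 K s hs').2]
    unfold hh
    ring
  exact core (fun v : Pr K => (q v : ℝ)) hq (fun s hs => (hA1 K s hs).1) _ hκ

end

end Pool.Agent.Helper84.TT
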